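import Pool.Agent.Y493.Br.Cert
import Pool.Agent.Y899.BR.L1

set_option autoImplicit false

/-!
Soundness of the interval positivity certificates (job BR-L5).
-/

namespace Y98.BR

open Y493.Br.Refl Y493.Br.Pk Y493.Br.Cert Y899.BR

/-! ### change of the parameter -/

theorem cev_shC (C H : Int) (q : Nat) (r tau : ℝ) (h : (q : ℝ) * r = (C : ℝ) + (H : ℝ) * tau) :
    ∀ (c : Cf) (D : Nat), c.length ≤ D + 1 →
      cev tau (shC C H q D c) = (q : ℝ) ^ D * cev r c := by
  intro c
  induction c with
  | nil => intro D _; simp [shC, cev]
  | cons x a ih =>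
    intro D hD
    have h1 : cev tau (shC C H q D (x :: a)) =
        (q : ℝ) ^ D * (x : ℝ) + ((C : ℝ) + (H : ℝ) * tau) * cev tau (shC C H q (D - 1) a) := by
      rw [shC, cev_cadd, cev_cmul]
      simp only [cev_cons, cev_nil, mul_zero, add_zero]
      have e1 : ((Int.mul (Int.ofNat (q ^ D)) x : Int) : ℝ) = (q : ℝ) ^ D * (x : ℝ) := by
        have e2 : (Int.mul (Int.ofNat (q ^ D)) x : Int) = ((q ^ D : Nat) : Int) * x := rfl
        rw [e2]
        push_cast
        rfl
      rw [e1]
      ring
    rw [h1]
    cases a with
    | nil => simp [shC, cev]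
    | cons y b =>
      have hD' : 1 ≤ D := by
        simp only [List.length_cons] at hD
        omega
      obtain ⟨E, rfl⟩ : ∃ E, D = E + 1 := ⟨D - 1, by omega⟩
      have h2 := ih E (by simp only [List.length_cons] at hD ⊢; omega)
      simp only [Nat.add_sub_cancel]
      rw [h2, ← h, cev_cons r x, pow_succ]
      ring

theorem eqC_sound : ∀ (a b : Cf), eqC a b = true → a = b := by
  intro a
  induction a with
  | nil =>
    intro b h
    cases b with
    | nil => rfl
    | cons y b => simp [eqC] at h
  | cons x a ih =>
    intro b h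
    cases b with
    | nil => simp [eqC] at h
    | cons y b =>
      rw [eqC, Bool.and_eq_true] at h
      obtain ⟨h1, h2⟩ := h
      have h3 : x = y := by
        have h4 : Int.sub x y = x - y := rfl
        split at h1
        · next n hn =>
          have := Nat.eq_of_beq_eq_true h1
          subst this
          rw [h4] at hn
          have : (Int.ofNat 0 : Int) = 0 := rfl
          omega
        · exact absurd h1 (by decide)
      rw [h3, ih b h2]

theorem eqM_sound : ∀ (a b : Mo), eqM a b = true → a = b := by
  intro a
  induction a with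
  | nil =>
    intro b h
    cases b with
    | nil => rfl
    | cons y b => simp [eqM] at h
  | cons x a ih =>
    intro b h
    cases b with
    | nil => simp [eqM] at h
    | cons y b =>
      rw [eqM, Bool.and_eq_true] at h
      rw [Nat.eq_of_beq_eq_true h.1, ih b h.2]

theorem eqP_sound : ∀ (a b : Po), eqP a b = true → a = b := by
  intro a
  induction a with
  | nil =>
    intro b h
    cases b with
    | nil => rfl
    | cons y b => simp [eqP] at h
  | cons x a ih =>
    intro b h
    cases b with
    | nil => simp [eqP] at h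
    | cons y b =>
      rw [eqP, Bool.and_eq_true, Bool.and_eq_true] at h
      obtain ⟨h1, h2, h3⟩ := h
      rw [ih b h3, Prod.ext (eqM_sound _ _ h1) (eqC_sound _ _ h2)]

theorem pev_shP (C H : Int) (q D : Nat) (r tau : ℝ) (v : Nat → ℝ)
    (h : (q : ℝ) * r = (C : ℝ) + (H : ℝ) * tau) :
    ∀ P : Po, lenOk D P = true → (q : ℝ) ^ D * pev r v P = pev tau v (shP C H q D P) := by
  intro P
  induction P with
  | nil => intro _; simp [shP, pev]
  | cons t P ih =>
    intro hP
    rw [lenOk, Bool.and_eq_true] at hP
    have h1 : t.2.length ≤ D + 1 := Nat.le_of_ble_eq_true hP.1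
    rw [shP, pev_cons, pev_cons, mul_add, ih hP.2]
    simp only
    rw [cev_shC C H q r tau h t.2 D h1]
    ring

/-- first part of `StL5` -/
theorem shift_sound (C H : Int) (q D : Nat) (P P' : Po) (hs : shOk C H q D P P' = true)
    (r tau : ℝ) (v : Nat → ℝ) (h : (q : ℝ) * r = (C : ℝ) + (H : ℝ) * tau) :
    (q : ℝ) ^ D * pev r v P = pev tau v P' := by
  rw [shOk, Bool.and_eq_true] at hs
  rw [pev_shP C H q D r tau v h P hs.1, eqP_sound _ _ hs.2]

/-! ### quadratic forms -/

section qf

variable {α : Type}

def lin (φ : α → ℝ) : List α → List ℝ → ℝ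
  | c :: cs, x :: xs => φ c * x + lin φ cs xs
  | _, _ => 0

def rwf (φ : α → ℝ) : List α → List ℝ → ℝ
  | c :: cs, x :: xs => x * (φ c * x + 2 * lin φ cs xs)
  | _, _ => 0

def qf (φ : α → ℝ) : List (List α) → List ℝ → ℝ
  | row :: rows, x :: xs => rwf φ row (x :: xs) + qf φ rows xs
  | _, _ => 0

theorem lin_nil_left (φ : α → ℝ) (xs : List ℝ) : lin φ [] xs = 0 := by
  cases xs <;> rfl

theorem lin_nil_right (φ : α → ℝ) (cs : List α) : lin φ cs [] = 0 := by
  cases cs <;> rfl

theorem lin_cons (φ : α → ℝ) (c : α) (cs : List α) (x : ℝ) (xs : List ℝ) :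
    lin φ (c :: cs) (x :: xs) = φ c * x + lin φ cs xs := rfl

theorem rwf_cons (φ : α → ℝ) (c : α) (cs : List α) (x : ℝ) (xs : List ℝ) :
    rwf φ (c :: cs) (x :: xs) = x * (φ c * x + 2 * lin φ cs xs) := rfl

theorem qf_nil_left (φ : α → ℝ) (xs : List ℝ) : qf φ [] xs = 0 := by
  cases xs <;> rfl

theorem qf_nil_right (φ : α → ℝ) (cs : List (List α)) : qf φ cs [] = 0 := by
  cases cs <;> rfl

theorem qf_cons (φ : α → ℝ) (row : List α) (rows : List (List α)) (x : ℝ) (xs : List ℝ) :
    qf φ (row :: rows) (x :: xs) = rwf φ row (x :: xs) + qf φ rows xs := rfl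

end qf

/-! ### semantics of the quadratic expressions -/

theorem sem_rowTail (tau : ℝ) (v : Nat → ℝ) : ∀ (cs : List Cf) (ps : List Po),
    (rowTail cs ps).sem tau v = 2 * lin (cev tau) cs (ps.map (pev tau v)) := by
  intro cs
  induction cs with
  | nil =>
    intro ps
    rw [lin_nil_left]
    cases ps <;> simp [rowTail, Ex.sem, pev]
  | cons c cs ih =>
    intro ps
    cases ps with
    | nil => simp [rowTail, Ex.sem, pev, lin_nil_right]
    | cons p ps =>
      rw [List.map_cons, lin_cons]
      simp only [rowTail, Ex.sem, ih, pev_cons, pev_nil, cev_csmul, mev_nil]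
      push_cast
      ring

theorem sem_rowEx (tau : ℝ) (v : Nat → ℝ) (cs : List Cf) (ps : List Po) :
    (rowEx cs ps).sem tau v = rwf (cev tau) cs (ps.map (pev tau v)) := by
  cases cs with
  | nil => cases ps <;> simp [rowEx, Ex.sem, pev, rwf]
  | cons c cs =>
    cases ps with
    | nil => simp [rowEx, Ex.sem, pev, rwf]
    | cons p ps =>
      rw [List.map_cons, rwf_cons]
      simp only [rowEx, Ex.sem, sem_rowTail, pev_cons, pev_nil, mev_nil]
      ring

theorem sem_quadEx (tau : ℝ) (v : Nat → ℝ) : ∀ (rows : List (List Cf)) (ps : List Po),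
    (quadEx rows ps).sem tau v = qf (cev tau) rows (ps.map (pev tau v)) := by
  intro rows
  induction rows with
  | nil =>
    intro ps
    rw [qf_nil_left]
    cases ps <;> simp [quadEx, Ex.sem, pev]
  | cons row rows ih =>
    intro ps
    cases ps with
    | nil => simp [quadEx, Ex.sem, pev, qf_nil_right]
    | cons p ps =>
      rw [List.map_cons, qf_cons]
      simp only [quadEx, Ex.sem, ih]
      rw [sem_rowEx, List.map_cons]

/-! ### the Bareiss elimination -/

theorem barRow_sound (p a b : Int) : ∀ (ms cs l : List Int), barRow p a b ms cs = some l →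
    ∀ xs : List ℝ, (a : ℝ) * lin (fun z : Int => (z : ℝ)) ms xs -
      (b : ℝ) * lin (fun z : Int => (z : ℝ)) cs xs = (p : ℝ) * lin (fun z : Int => (z : ℝ)) l xs := by
  intro ms
  induction ms with
  | nil =>
    intro cs l h xs
    cases cs with
    | nil =>
      simp only [barRow, Option.some.injEq] at h
      subst h
      simp [lin_nil_left]
    | cons c cs => simp [barRow] at h
  | cons m ms ih =>
    intro cs l h xs
    cases cs with
    | nil => simp [barRow] at h
    | cons c cs =>
      simp only [barRow] at h
      split at h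
      · next n hn =>
        cases hz : Nat.beq n 0 with
        | false => rw [hz] at h; simp at h
        | true =>
          rw [hz] at h
          simp only [cond_true] at h
          have hn0 : n = 0 := Nat.eq_of_beq_eq_true hz
          subst hn0
          split at h
          · next l' hl' =>
            simp only [Option.some.injEq] at h
            subst h
            have key : p * (Int.tdiv (Int.sub (Int.mul a m) (Int.mul b c)) p) = a * m - b * c := by
              have h1 : Int.sub (Int.mul p (Int.tdiv (Int.sub (Int.mul a m) (Int.mul b c)) p))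
                (Int.sub (Int.mul a m) (Int.mul b c)) =
                p * (Int.tdiv (Int.sub (Int.mul a m) (Int.mul b c)) p) - (a * m - b * c) := rfl
              rw [h1] at hn
              have h2 : (Int.ofNat 0 : Int) = 0 := rfl
              rw [h2] at hn
              omega
            cases xs with
            | nil => simp [lin_nil_right]
            | cons x xs =>
              rw [lin_cons, lin_cons, lin_cons]
              have h3 := ih cs l' hl' xs
              have h4 : (p : ℝ) * ((Int.tdiv (Int.sub (Int.mul a m) (Int.mul b c)) p : Int) : ℝ) =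
                  (a : ℝ) * (m : ℝ) - (b : ℝ) * (c : ℝ) := by
                exact_mod_cast key
              linear_combination h3 - x * h4
          · simp at h
      · simp at h

theorem barRows_sound (p a : Int) : ∀ (rows : List (List Int)) (bs : List Int)
    (M : List (List Int)), barRows p a rows bs = some M →
    ∀ xs : List ℝ, (a : ℝ) * qf (fun z : Int => (z : ℝ)) rows xs -
      (lin (fun z : Int => (z : ℝ)) bs xs) ^ 2 = (p : ℝ) * qf (fun z : Int => (z : ℝ)) M xs := by
  intro rows
  induction rows with
  | nil =>
    intro bs M h xs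
    cases bs with
    | nil =>
      simp only [barRows, Option.some.injEq] at h
      subst h
      simp [lin_nil_left, qf_nil_left]
    | cons c cs => simp [barRows] at h
  | cons row rows ih =>
    intro bs M h xs
    cases bs with
    | nil => simp [barRows] at h
    | cons b bs =>
      simp only [barRows] at h
      split at h
      · next l hl =>
        split at h
        · next ls hls =>
          simp only [Option.some.injEq] at h
          subst h
          cases xs with
          | nil => simp [lin_nil_right, qf_nil_right]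
          | cons x xs =>
            rw [qf_cons, qf_cons, lin_cons]
            have h3 := ih bs ls hls xs
            have h5 : (a : ℝ) * rwf (fun z : Int => (z : ℝ)) row (x :: xs) -
                (b : ℝ) ^ 2 * x ^ 2 - 2 * (b : ℝ) * x * lin (fun z : Int => (z : ℝ)) bs xs =
                (p : ℝ) * rwf (fun z : Int => (z : ℝ)) l (x :: xs) := by
              cases row with
              | nil => simp [barRow] at hl
              | cons m ms =>
                cases l with
                | nil =>
                  exfalso
                  simp only [barRow] at hl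
                  split at hl
                  · next n hn =>
                    cases hz : Nat.beq n 0 with
                    | false => rw [hz] at hl; simp at hl
                    | true =>
                      rw [hz] at hl
                      simp only [cond_true] at hl
                      split at hl <;> simp at hl
                  · simp at hl
                | cons t l =>
                  have h6 := barRow_sound p a b _ _ _ hl [1]
                  have h7 := barRow_sound p a b _ _ _ hl (0 :: xs)
                  simp only [lin_cons, lin_nil_right] at h6 h7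
                  rw [rwf_cons, rwf_cons]
                  linear_combination (x ^ 2) * h6 + 2 * x * h7
            linear_combination h3 + h5
        · simp at h
      · simp at h

theorem psd_sound : ∀ (f : Nat) (p : Int) (M : List (List Int)), 0 < p →
    Y493.Br.Cert.psd f p M = true → ∀ xs : List ℝ, 0 ≤ qf (fun z : Int => (z : ℝ)) M xs := by
  intro f
  induction f with
  | zero =>
    intro p M _ h xs
    cases M with
    | nil => rw [qf_nil_left]
    | cons row rows => simp [Y493.Br.Cert.psd] at h
  | succ f ih =>
    intro p M hp h xs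
    cases M with
    | nil => rw [qf_nil_left]
    | cons row rows =>
      cases row with
      | nil => simp [Y493.Br.Cert.psd] at h
      | cons a bs =>
        cases a with
        | negSucc n => simp [Y493.Br.Cert.psd] at h
        | ofNat n =>
          simp only [Y493.Br.Cert.psd] at h
          cases hz : Nat.beq n 0 with
          | true => rw [hz] at h; simp at h
          | false =>
            rw [hz] at h
            simp only [cond_false] at h
            split at h
            · next M' hM' =>
              have hn : 0 < n := by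
                rcases Nat.eq_zero_or_pos n with h0 | h0
                · subst h0; simp at hz
                · exact h0
              have ha : (0 : Int) < Int.ofNat n := by
                have : (Int.ofNat n : Int) = (n : Int) := rfl
                omega
              have h1 := ih (Int.ofNat n) M' ha h
              have h2 := barRows_sound p (Int.ofNat n) rows bs M' hM'
              cases xs with
              | nil => rw [qf_nil_right]
              | cons x xs =>
                rw [qf_cons, rwf_cons]
                have ha' : (0 : ℝ) < ((Int.ofNat n : Int) : ℝ) := by exact_mod_cast ha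
                have hp' : (0 : ℝ) < (p : ℝ) := by exact_mod_cast hp
                have h3 := h2 xs
                have h4 := mul_nonneg hp'.le (h1 xs)
                have h5 : 0 ≤ ((Int.ofNat n : Int) : ℝ) *
                    (x * (((Int.ofNat n : Int) : ℝ) * x +
                      2 * lin (fun z : Int => (z : ℝ)) bs xs) +
                      qf (fun z : Int => (z : ℝ)) rows xs) := by
                  have h6 := sq_nonneg (((Int.ofNat n : Int) : ℝ) * x +
                    lin (fun z : Int => (z : ℝ)) bs xs)
                  nlinarith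
                exact nonneg_of_mul_nonneg_right h5 ha'
            · simp at h

/-! ### tails -/

theorem cev_abs (tau : ℝ) (h : |tau| ≤ 1) : ∀ c : Cf, |cev tau c| ≤ (nrmC c : ℝ) := by
  intro c
  induction c with
  | nil => simp [cev, nrmC]
  | cons x a ih =>
    rw [cev_cons]
    have h1 : (nrmC (x :: a) : ℝ) = |(x : ℝ)| + (nrmC a : ℝ) := by
      have h2 : nrmC (x :: a) = x.natAbs + nrmC a := rfl
      rw [h2, Nat.cast_add, Nat.cast_natAbs, Int.cast_abs]
    rw [h1]
    calc |(x : ℝ) + tau * cev tau a| ≤ |(x : ℝ)| + |tau * cev tau a| := abs_add_le _ _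
      _ = |(x : ℝ)| + |tau| * |cev tau a| := by rw [abs_mul]
      _ ≤ |(x : ℝ)| + (nrmC a : ℝ) := by
        have := mul_le_mul h ih (abs_nonneg _) (by norm_num)
        linarith

/-- the part of degree at most 4 -/
noncomputable def low (tau : ℝ) (c : Cf) : ℝ :=
  (cf 0 c : ℝ) + (cf 1 c : ℝ) * tau + (cf 2 c : ℝ) * tau ^ 2 + (cf 3 c : ℝ) * tau ^ 3 +
    (cf 4 c : ℝ) * tau ^ 4

theorem cev_low (tau : ℝ) (c : Cf) :
    cev tau c = low tau c + tau ^ 5 * cev tau (c.drop 5) := by
  unfold low cf
  rcases c with _ | ⟨a0, _ | ⟨a1, _ | ⟨a2, _ | ⟨a3, _ | ⟨a4, c⟩⟩⟩⟩⟩ <;>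
    simp [cev_cons, cev_nil] <;> ring

theorem low_err (tau : ℝ) (h : |tau| ≤ 1) (c : Cf) :
    |cev tau c - low tau c| ≤ (tailAbs c : ℝ) := by
  rw [cev_low tau c, add_sub_cancel_left, abs_mul, abs_pow]
  have h1 := cev_abs tau h (c.drop 5)
  have h2 : |tau| ^ 5 ≤ 1 := pow_le_one₀ (abs_nonneg _) h
  have h3 := mul_le_mul h2 h1 (abs_nonneg _) (by norm_num)
  rw [one_mul] at h3
  exact h3

def sq : List Nat → List ℝ → ℝ
  | e :: es, x :: xs => (e : ℝ) * x ^ 2 + sq es xs
  | _, _ => 0

def sqc : List Cf → List ℝ → ℝ
  | c :: cs, x :: xs => (tailAbs c : ℝ) * x ^ 2 + sqc cs xs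
  | _, _ => 0

theorem sq_nil_left (xs : List ℝ) : sq [] xs = 0 := by cases xs <;> rfl

theorem sq_nil_right (es : List Nat) : sq es [] = 0 := by cases es <;> rfl

theorem sqc_nil_left (xs : List ℝ) : sqc [] xs = 0 := by cases xs <;> rfl

theorem sqc_nil_right (es : List Cf) : sqc es [] = 0 := by cases es <;> rfl

theorem addErr_length : ∀ (es : List Nat) (cs : List Cf), (addErr es cs).length = es.length := by
  intro es
  induction es with
  | nil => intro cs; cases cs <;> rfl
  | cons e es ih =>
    intro cs
    cases cs with
    | nil => rfl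
    | cons c cs => simp [addErr, ih]

theorem errs_length : ∀ (mat : List (List Cf)), (errs mat).length = mat.length := by
  intro mat
  induction mat with
  | nil => rfl
  | cons row rows ih =>
    cases row with
    | nil => simp [errs, ih]
    | cons c cs => simp [errs, addErr_length, ih]

theorem shape_length : ∀ (n : Nat) (mat : List (List Cf)), shape n mat = true →
    mat.length = n := by
  intro n
  induction n with
  | zero =>
    intro mat h
    cases mat with
    | nil => rfl
    | cons row rows => simp [shape] at h
  | succ n ih =>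
    intro mat h
    cases mat with
    | nil => simp [shape] at h
    | cons row rows =>
      rw [shape, Bool.and_eq_true] at h
      simp [ih rows h.2]

theorem addErr_sq : ∀ (es : List Nat) (cs : List Cf) (xs : List ℝ), cs.length ≤ es.length →
    sq (addErr es cs) xs = sq es xs + sqc cs xs := by
  intro es
  induction es with
  | nil =>
    intro cs xs h
    cases cs with
    | nil => simp [addErr, sqc_nil_left]
    | cons c cs => simp at h
  | cons e es ih =>
    intro cs xs h
    cases cs with
    | nil => simp [addErr, sqc_nil_left]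
    | cons c cs =>
      cases xs with
      | nil => simp [sq_nil_right, sqc_nil_right]
      | cons x xs =>
        have h1 := ih cs xs (by simpa using h)
        simp only [addErr, sq, sqc]
        rw [h1]
        have h2 : ((Nat.add e (tailAbs c) : Nat) : ℝ) = (e : ℝ) + (tailAbs c : ℝ) := by
          exact_mod_cast rfl
        rw [h2]
        ring

theorem rowErr_cons (c : Cf) (cs : List Cf) :
    ((rowErr (c :: cs) : Nat) : ℝ) = (tailAbs c : ℝ) + (rowErr cs : ℝ) := by
  have h : rowErr (c :: cs) = tailAbs c + rowErr cs := rfl
  rw [h, Nat.cast_add]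

theorem row_err (tau : ℝ) (h : |tau| ≤ 1) (x : ℝ) : ∀ (cs : List Cf) (xs : List ℝ),
    -((rowErr cs : ℝ) * x ^ 2 + sqc cs xs) ≤
      2 * x * (lin (cev tau) cs xs - lin (low tau) cs xs) := by
  intro cs
  induction cs with
  | nil =>
    intro xs
    simp [lin_nil_left, sqc_nil_left, rowErr]
  | cons c cs ih =>
    intro xs
    cases xs with
    | nil =>
      have : 0 ≤ ((rowErr (c :: cs) : Nat) : ℝ) * x ^ 2 := by positivity
      simp only [lin_nil_right, sqc_nil_right]
      linarith
    | cons y ys =>
      have h1 := ih ys
      have h2 := abs_le.mp (low_err tau h c)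
      rw [rowErr_cons, lin_cons, lin_cons]
      have h3 : sqc (c :: cs) (y :: ys) = (tailAbs c : ℝ) * y ^ 2 + sqc cs ys := rfl
      rw [h3]
      have h4 : -((tailAbs c : ℝ) * x ^ 2 + (tailAbs c : ℝ) * y ^ 2) ≤
          2 * x * y * (cev tau c - low tau c) := by
        nlinarith [mul_nonneg (sub_nonneg.mpr h2.2) (sq_nonneg (x - y)),
          mul_nonneg (by linarith [h2.1] : 0 ≤ (tailAbs c : ℝ) + (cev tau c - low tau c))
            (sq_nonneg (x + y)), mul_nonneg (sub_nonneg.mpr h2.2) (sq_nonneg (x + y)),
          mul_nonneg (by linarith [h2.1] : 0 ≤ (tailAbs c : ℝ) + (cev tau c - low tau c))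
            (sq_nonneg (x - y))]
      linarith

theorem err_sound (tau : ℝ) (h : |tau| ≤ 1) : ∀ (n : Nat) (mat : List (List Cf)),
    shape n mat = true → ∀ xs : List ℝ,
      qf (low tau) mat xs - sq (errs mat) xs ≤ qf (cev tau) mat xs := by
  intro n
  induction n with
  | zero =>
    intro mat hm xs
    cases mat with
    | nil => simp [qf_nil_left, errs, sq_nil_left]
    | cons row rows => simp [shape] at hm
  | succ n ih =>
    intro mat hm xs
    cases mat with
    | nil => simp [shape] at hm
    | cons row rows =>
      rw [shape, Bool.and_eq_true] at hm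
      obtain ⟨h1, h2⟩ := hm
      have h3 : row.length = n + 1 := Nat.eq_of_beq_eq_true h1
      have h4 := shape_length n rows h2
      cases xs with
      | nil => simp [qf_nil_right, sq_nil_right]
      | cons x xs =>
        cases row with
        | nil => simp at h3
        | cons c cs =>
          have h5 := ih rows h2 xs
          have h6 := row_err tau h x cs xs
          have h7 : sq (errs ((c :: cs) :: rows)) (x :: xs) =
              ((rowErr (c :: cs) : Nat) : ℝ) * x ^ 2 + sq (addErr (errs rows) cs) xs := rfl
          have h8 : cs.length ≤ (errs rows).length := by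
            rw [errs_length, h4]
            simp at h3
            omega
          rw [h7, addErr_sq _ _ _ h8, rowErr_cons, qf_cons, qf_cons, rwf_cons, rwf_cons]
          have h9 := abs_le.mp (low_err tau h c)
          have h10 : -((tailAbs c : ℝ) * x ^ 2) ≤ x ^ 2 * (cev tau c - low tau c) := by
            nlinarith [mul_nonneg (by linarith [h9.1] :
              0 ≤ (tailAbs c : ℝ) + (cev tau c - low tau c)) (sq_nonneg x)]
          linarith

/-! ### Bernstein coefficients -/

noncomputable def wt (tau : ℝ) (i : Nat) : ℝ := (1 + tau) ^ i * (1 - tau) ^ (4 - i)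

theorem bern_sum (tau : ℝ) (c : Cf) (e : Nat) :
    wt tau 0 * (bern 0 c e : ℝ) + wt tau 1 * (bern 1 c e : ℝ) + wt tau 2 * (bern 2 c e : ℝ) +
      wt tau 3 * (bern 3 c e : ℝ) + wt tau 4 * (bern 4 c e : ℝ) =
      16 * (low tau c - (e : ℝ)) := by
  have h0 : (Int.sub (cf 0 c) (Int.ofNat e) : Int) = cf 0 c - (e : Int) := rfl
  unfold wt bern low
  simp only [h0]
  push_cast
  ring

theorem lin_map (f : Cf → Int) : ∀ (cs : List Cf) (xs : List ℝ),
    lin (fun z : Int => (z : ℝ)) (cs.map f) xs = lin (fun c => (f c : ℝ)) cs xs := by
  intro cs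
  induction cs with
  | nil => intro xs; simp [lin_nil_left]
  | cons c cs ih =>
    intro xs
    cases xs with
    | nil => simp [lin_nil_right]
    | cons x xs => rw [List.map_cons, lin_cons, lin_cons, ih]

theorem lin_bern (tau : ℝ) : ∀ (cs : List Cf) (xs : List ℝ),
    wt tau 0 * lin (fun c => (bern 0 c 0 : ℝ)) cs xs +
      wt tau 1 * lin (fun c => (bern 1 c 0 : ℝ)) cs xs +
      wt tau 2 * lin (fun c => (bern 2 c 0 : ℝ)) cs xs +
      wt tau 3 * lin (fun c => (bern 3 c 0 : ℝ)) cs xs +
      wt tau 4 * lin (fun c => (bern 4 c 0 : ℝ)) cs xs = 16 * lin (low tau) cs xs := by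
  intro cs
  induction cs with
  | nil => intro xs; simp [lin_nil_left]
  | cons c cs ih =>
    intro xs
    cases xs with
    | nil => simp [lin_nil_right]
    | cons x xs =>
      simp only [lin_cons]
      have h1 := ih xs
      have h2 := bern_sum tau c 0
      rw [Nat.cast_zero, sub_zero] at h2
      linear_combination h1 + x * h2

theorem rwf_bern (tau : ℝ) (c : Cf) (cs : List Cf) (e : Nat) (x : ℝ) (xs : List ℝ) :
    wt tau 0 * rwf (fun z : Int => (z : ℝ)) (bernRow 0 (c :: cs) e) (x :: xs) +
      wt tau 1 * rwf (fun z : Int => (z : ℝ)) (bernRow 1 (c :: cs) e) (x :: xs) +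
      wt tau 2 * rwf (fun z : Int => (z : ℝ)) (bernRow 2 (c :: cs) e) (x :: xs) +
      wt tau 3 * rwf (fun z : Int => (z : ℝ)) (bernRow 3 (c :: cs) e) (x :: xs) +
      wt tau 4 * rwf (fun z : Int => (z : ℝ)) (bernRow 4 (c :: cs) e) (x :: xs) =
      16 * (rwf (low tau) (c :: cs) (x :: xs) - (e : ℝ) * x ^ 2) := by
  simp only [bernRow, rwf_cons, lin_map]
  have h1 := lin_bern tau cs xs
  have h2 := bern_sum tau c e
  linear_combination x ^ 2 * h2 + 2 * x * h1

theorem qf_bern (tau : ℝ) : ∀ (n : Nat) (mat : List (List Cf)), shape n mat = true →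
    ∀ (es : List Nat), es.length = n → ∀ xs : List ℝ,
    wt tau 0 * qf (fun z : Int => (z : ℝ)) (bernMat 0 mat es) xs +
      wt tau 1 * qf (fun z : Int => (z : ℝ)) (bernMat 1 mat es) xs +
      wt tau 2 * qf (fun z : Int => (z : ℝ)) (bernMat 2 mat es) xs +
      wt tau 3 * qf (fun z : Int => (z : ℝ)) (bernMat 3 mat es) xs +
      wt tau 4 * qf (fun z : Int => (z : ℝ)) (bernMat 4 mat es) xs =
      16 * (qf (low tau) mat xs - sq es xs) := by
  intro n
  induction n with
  | zero =>
    intro mat hm es he xs
    cases mat with
    | nil =>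
      have : es = [] := List.length_eq_zero_iff.mp he
      subst this
      simp [bernMat, qf_nil_left, sq_nil_left]
    | cons row rows => simp [shape] at hm
  | succ n ih =>
    intro mat hm es he xs
    cases mat with
    | nil => simp [shape] at hm
    | cons row rows =>
      rw [shape, Bool.and_eq_true] at hm
      obtain ⟨h1, h2⟩ := hm
      have h3 : row.length = n + 1 := Nat.eq_of_beq_eq_true h1
      cases es with
      | nil => simp at he
      | cons e es =>
        cases row with
        | nil => simp at h3
        | cons c cs =>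
          cases xs with
          | nil => simp [qf_nil_right, sq_nil_right]
          | cons x xs =>
            simp only [bernMat, qf_cons]
            have h5 := ih rows h2 es (by simpa using he) xs
            have h6 := rwf_bern tau c cs e x xs
            have h7 : sq (e :: es) (x :: xs) = (e : ℝ) * x ^ 2 + sq es xs := rfl
            rw [h7]
            linear_combination h5 + h6

/-! ### blocks -/

theorem wt_nonneg (tau : ℝ) (h1 : -1 ≤ tau) (h2 : tau ≤ 1) (i : Nat) : 0 ≤ wt tau i := by
  unfold wt
  have : 0 ≤ 1 + tau := by linarith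
  have : 0 ≤ 1 - tau := by linarith
  positivity

theorem blk_quad_nonneg (b : Blk) (hb : b.psd = true) (tau : ℝ) (h1 : -1 ≤ tau) (h2 : tau ≤ 1)
    (xs : List ℝ) : 0 ≤ qf (cev tau) b.mat xs := by
  simp only [Blk.psd, Bool.and_eq_true] at hb
  obtain ⟨hs, p0, p1, p2, p3, p4⟩ := hb
  have e1 := err_sound tau (abs_le.mpr ⟨h1, h2⟩) _ _ hs xs
  have e2 := qf_bern tau _ _ hs (errs b.mat) (by rw [errs_length, shape_length _ _ hs]) xs
  have q0 := mul_nonneg (wt_nonneg tau h1 h2 0) (psd_sound 20 1 _ (by norm_num) p0 xs)
  have q1 := mul_nonneg (wt_nonneg tau h1 h2 1) (psd_sound 20 1 _ (by norm_num) p1 xs)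
  have q2 := mul_nonneg (wt_nonneg tau h1 h2 2) (psd_sound 20 1 _ (by norm_num) p2 xs)
  have q3 := mul_nonneg (wt_nonneg tau h1 h2 3) (psd_sound 20 1 _ (by norm_num) p3 xs)
  have q4 := mul_nonneg (wt_nonneg tau h1 h2 4) (psd_sound 20 1 _ (by norm_num) p4 xs)
  linarith

theorem blk_nonneg (b : Blk) (hb : b.psd = true) (tau : ℝ) (v : Nat → ℝ) (h1 : -1 ≤ tau)
    (h2 : tau ≤ 1) (h0 : 0 < v 0) : 0 ≤ b.ex.sem tau v := by
  have h3 : 0 ≤ (quadEx b.mat b.basis).sem tau v := by
    rw [sem_quadEx]
    exact blk_quad_nonneg b hb tau h1 h2 _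
  unfold Blk.ex
  cases b.wK with
  | false => simpa using h3
  | true =>
    simp only [cond_true, Ex.sem, pev_cons, pev_nil, cev_cons, cev_nil, mev_cons, mev_nil]
    have := mul_nonneg h0.le h3
    push_cast
    linarith

theorem blks_nonneg (tau : ℝ) (v : Nat → ℝ) (h1 : -1 ≤ tau)
    (h2 : tau ≤ 1) (h0 : 0 < v 0) : ∀ bs : List Blk, psdAll bs = true →
    0 ≤ (blksEx bs).sem tau v := by
  intro bs
  induction bs with
  | nil => intro _; simp [blksEx, Ex.sem, pev]
  | cons b bs ih =>
    intro h
    rw [psdAll, Bool.and_eq_true] at h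
    have h3 := blk_nonneg b h.1 tau v h1 h2 h0
    have h4 := ih h.2
    simp only [blksEx, Ex.sem]
    linarith

theorem comb_zero (tau : ℝ) (v : Nat → ℝ) : ∀ comb : List (Po × Po × Po),
    (∀ t ∈ comb, pev tau v t.2.2 = 0) → (combEx comb).sem tau v = 0 := by
  intro comb
  induction comb with
  | nil => intro _; simp [combEx, Ex.sem, pev]
  | cons t l ih =>
    intro h
    have h1 := h t (List.mem_cons_self ..)
    have h2 := ih (fun s hs => h s (List.mem_cons_of_mem _ hs))
    simp only [combEx, Ex.sem]
    rw [h1, h2]
    ring

/-- second part of `StL5` -/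
theorem cert_sound (h3 : StL3) (comb : List (Po × Po × Po)) (c : Nat) (g : Po) (bs : List Blk)
    (hz : (idEx comb c g bs).isZero = true) (hp : psdAll bs = true)
    (tau : ℝ) (v : Nat → ℝ) (h1 : -1 ≤ tau) (h2 : tau ≤ 1) (h0 : 0 < v 0)
    (hc : ∀ t ∈ comb, pev tau v t.2.2 = 0) : pev tau v g = 0 := by
  have h4 := h3 _ hz ℝ tau v
  simp only [idEx, Ex.sem, pev_cons, pev_nil, cev_cons, cev_nil, mev_cons, mev_nil] at h4
  rw [comb_zero tau v comb hc] at h4
  have h5 := blks_nonneg tau v h1 h2 h0 bs hp
  have h6 : ((Int.ofNat (c + 1) : Int) : ℝ) = (c : ℝ) + 1 := by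
    have : (Int.ofNat (c + 1) : Int) = (c : Int) + 1 := rfl
    rw [this]
    push_cast
    ring
  rw [h6] at h4
  have h7 : ((c : ℝ) + 1) * v 0 * (pev tau v g * pev tau v g) ≤ 0 := by linarith
  have h8 : 0 < ((c : ℝ) + 1) * v 0 := by positivity
  have h9 : pev tau v g * pev tau v g ≤ 0 := by
    by_contra hcon
    rw [not_le] at hcon
    exact absurd (mul_pos h8 hcon) (not_lt.mpr h7)
  nlinarith [mul_self_nonneg (pev tau v g), mul_self_eq_zero.mp
    (le_antisymm h9 (mul_self_nonneg (pev tau v g)))]

/-- job BR-L5 -/
theorem l5 : StL5 := by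
  intro h3
  refine ⟨fun C H q D P P' hs r tau v h => shift_sound C H q D P P' hs r tau v h,
    fun comb c g bs hz hp tau v h1 h2 h0 hc => cert_sound h3 comb c g bs hz hp tau v h1 h2 h0 hc⟩

end Y98.BR
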